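import Pool.Agent.Q130.RC.Lem

set_option autoImplicit false

namespace Pool.Agent.Results.MP_4bc86c_co.NoRainbowCycle

open Q130.RC

/-- For every `k ≥ 3` and `n = 2 ^ k` or `n = 2 ^ k - 1`, some optimal edge colouring of `K_n` has
no rainbow cycle of length `n - 2`. -/
theorem result (k n : ℕ) (hk : 3 ≤ k) (hn : n = 2 ^ k ∨ n + 1 = 2 ^ k) :
    5 ≤ n ∧ ∃ c : Sym2 (Fin n) → ℕ, OptimalKn c ∧ ¬ HasRainbowCycle c (n - 2) := by
  classical
  have h8 : 8 ≤ 2 ^ k := by
    calc 8 = 2 ^ 3 := by norm_num
      _ ≤ 2 ^ k := Nat.pow_le_pow_right (by norm_num) hk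
  have hcard : Fintype.card (G2 k) = 2 ^ k := by simp [ZMod.card]
  have h5 : 5 ≤ n := by omega
  refine ⟨h5, ?_⟩
  have hne : Nonempty (Fin n) := ⟨⟨0, by omega⟩⟩
  obtain ⟨e⟩ : Nonempty (Fin n ↪ G2 k) := by
    apply Function.Embedding.nonempty_of_card_le
    rw [hcard, Fintype.card_fin]
    omega
  refine ⟨col e, ⟨proper e e.injective, ?_⟩, ?_⟩
  · intro c' hc'
    have h1 := numColours_le e e.injective
    rcases hn with hn | hn
    · have h2 := le_num c' hc'
      rw [Nat.card_fin] at h2
      omega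
    · have hodd : Odd (Nat.card (Fin n)) := by
        rw [Nat.card_fin]
        have h3 : Even (n + 1) := by
          rw [hn, Nat.even_pow]
          exact ⟨by decide, by omega⟩
        rcases Nat.even_or_odd n with h | h
        · exact absurd h3 (by rw [Nat.even_add_one]; exact fun h' => h' h)
        · exact h
      have h2 := le_num_odd hodd (by rw [Nat.card_fin]; omega) c' hc'
      rw [Nat.card_fin] at h2
      omega
  · rintro ⟨v, w, _, hlen, hnd⟩
    obtain ⟨S, hS, h0, hsum⟩ := rainbow_finset e e.injective w hnd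
    rcases hn with hn | hn
    · exact no_set1 (by omega) S h0 hsum (by omega)
    · exact no_set2 (by omega) S h0 hsum (by omega)

end Pool.Agent.Results.MP_4bc86c_co.NoRainbowCycle
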